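import Pool.Agent.Helper20K9.UL.Stm

/-!
UL (MP_b3e76a_pr): the leaf DET.
-/

set_option autoImplicit false

namespace Pool.Agent.Helper54K9.UL

open MeasureTheory Filter Topology Metric Set
open Helper20K9.UL
open scoped ENNReal NNReal

theorem det : S_DET := by
  intro X g Q hg hQ h
  have h1 : ∀ n : ℕ, ∃ J : Finset ℂ, (∃ J : Finset ℂ, (J.card : ℝ) ≤ Q * (2 : ℝ) ^ (g * n) ∧
      X ⊆ ⋃ x ∈ J, closedBall x ((2 : ℝ) ^ (-(n : ℝ)))) →
      ((J.card : ℝ) ≤ Q * (2 : ℝ) ^ (g * n) ∧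
      X ⊆ ⋃ x ∈ J, closedBall x ((2 : ℝ) ^ (-(n : ℝ)))) := by
    intro n
    by_cases hJ : ∃ J : Finset ℂ, (J.card : ℝ) ≤ Q * (2 : ℝ) ^ (g * n) ∧
      X ⊆ ⋃ x ∈ J, closedBall x ((2 : ℝ) ^ (-(n : ℝ)))
    · obtain ⟨J, hJ⟩ := hJ
      exact ⟨J, fun _ => hJ⟩
    · exact ⟨∅, fun hh => absurd hh hJ⟩
  choose J hJ using h1
  have hgood : ∀ᶠ n : ℕ in atTop, ((J n).card : ℝ) ≤ Q * (2 : ℝ) ^ (g * n) ∧
      X ⊆ ⋃ x ∈ J n, closedBall x ((2 : ℝ) ^ (-(n : ℝ))) := by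
    filter_upwards [h] with n hn
    exact hJ n hn
  have hd : ∀ (n : ℕ) (x : ℂ), ediam (closedBall x ((2 : ℝ) ^ (-(n : ℝ)))) ≤
      ENNReal.ofReal (2 * (2 : ℝ) ^ (-(n : ℝ))) := by
    intro n x
    apply ediam_le_of_forall_dist_le
    intro a ha b hb
    rw [mem_closedBall] at ha hb
    have := dist_triangle_right a b x
    linarith
  have hpow : ∀ n : ℕ, (2 : ℝ) ^ (-(n : ℝ)) = (1 / 2 : ℝ) ^ n := by
    intro n
    rw [Real.rpow_neg (by norm_num), Real.rpow_natCast, one_div, inv_pow]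
  have hr : Tendsto (fun n : ℕ => ENNReal.ofReal (2 * (2 : ℝ) ^ (-(n : ℝ)))) atTop (𝓝 0) := by
    have h2 : Tendsto (fun n : ℕ => 2 * (1 / 2 : ℝ) ^ n) atTop (𝓝 (2 * 0)) :=
      (tendsto_pow_atTop_nhds_zero_of_lt_one (by norm_num) (by norm_num)).const_mul 2
    rw [mul_zero] at h2
    have h3 := ENNReal.tendsto_ofReal h2
    rw [ENNReal.ofReal_zero] at h3
    refine h3.congr ?_
    intro n
    rw [hpow n]
  have hmain := Measure.hausdorffMeasure_le_liminf_sum (X := ℂ) (ι := fun n : ℕ => J n) g X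
    (fun n : ℕ => ENNReal.ofReal (2 * (2 : ℝ) ^ (-(n : ℝ)))) hr
    (fun n x => closedBall (x : ℂ) ((2 : ℝ) ^ (-(n : ℝ))))
    (Filter.Eventually.of_forall (fun n x => hd n x)) (by
      filter_upwards [hgood] with n hn
      refine hn.2.trans ?_
      intro z hz
      rw [mem_iUnion₂] at hz
      obtain ⟨x, hx, hz⟩ := hz
      rw [mem_iUnion]
      exact ⟨⟨x, hx⟩, hz⟩)
  have hle : μH[g] X ≤ ENNReal.ofReal (Q * (2 : ℝ) ^ g) := by
    refine hmain.trans ?_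
    refine (liminf_le_liminf (v := fun _ : ℕ => ENNReal.ofReal (Q * (2 : ℝ) ^ g)) ?_).trans ?_
    · filter_upwards [hgood] with n hn
      have hc : ∀ x : J n, ediam (closedBall (x : ℂ) ((2 : ℝ) ^ (-(n : ℝ)))) ^ g ≤
          ENNReal.ofReal ((2 * (2 : ℝ) ^ (-(n : ℝ))) ^ g) := by
        intro x
        rw [← ENNReal.ofReal_rpow_of_pos (by positivity)]
        exact ENNReal.rpow_le_rpow (hd n x) hg
      refine (Finset.sum_le_sum (fun x _ => hc x)).trans ?_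
      rw [Finset.sum_const, nsmul_eq_mul, Finset.card_univ, Fintype.card_coe,
        ← ENNReal.ofReal_natCast, ← ENNReal.ofReal_mul (by positivity)]
      apply ENNReal.ofReal_le_ofReal
      refine (mul_le_mul_of_nonneg_right hn.1 (by positivity)).trans (le_of_eq ?_)
      rw [Real.mul_rpow (by norm_num) (by positivity), ← Real.rpow_mul (by norm_num)]
      have e1 : (2 : ℝ) ^ (g * n) * (2 : ℝ) ^ (-(n : ℝ) * g) = 1 := by
        rw [← Real.rpow_add (by norm_num)]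
        have : g * n + -(n : ℝ) * g = 0 := by ring
        rw [this, Real.rpow_zero]
      calc Q * (2 : ℝ) ^ (g * n) * (2 ^ g * (2 : ℝ) ^ (-(n : ℝ) * g)) =
          Q * 2 ^ g * ((2 : ℝ) ^ (g * n) * (2 : ℝ) ^ (-(n : ℝ) * g)) := by ring
        _ = Q * 2 ^ g := by rw [e1, mul_one]
    · rw [liminf_const]
  have hfin : μH[((⟨g, hg⟩ : ℝ≥0) : ℝ)] X ≠ ∞ :=
    ne_top_of_le_ne_top ENNReal.ofReal_ne_top hle
  have hdim := dimH_le_of_hausdorffMeasure_ne_top hfin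
  refine hdim.trans (le_of_eq ?_)
  rw [ENNReal.ofReal, Real.toNNReal_of_nonneg hg]
  rfl

end Pool.Agent.Helper54K9.UL
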