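import Pool.Agent.Helper20K9.UL.Stm

/-!
UL (MP_b3e76a_pr): the leaf MO (moments and Markov's inequality).
-/

set_option autoImplicit false

namespace Pool.Agent.Helper54K9.UL

open MeasureTheory Filter Topology Metric Set
open Helper20K9.UL
open scoped ENNReal NNReal

namespace MoL

variable {Ω : Type} [MeasurableSpace Ω]

theorem cnt_eq (K : Ω → Set ℂ) (T : Finset ℂ) (r : ℝ) (ω : Ω) :
    cnt K T r ω = ∑ y ∈ T, (Hit K y r).indicator (fun _ => (1 : ℝ)) ω := by
  classical
  unfold cnt
  rw [Finset.card_filter]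
  push_cast
  apply Finset.sum_congr rfl
  intro y _
  rw [Set.indicator_apply]

theorem cnt_nonneg (K : Ω → Set ℂ) (T : Finset ℂ) (r : ℝ) (ω : Ω) : 0 ≤ cnt K T r ω := by
  unfold cnt
  positivity

theorem cnt_le (K : Ω → Set ℂ) (T : Finset ℂ) (r : ℝ) (ω : Ω) : cnt K T r ω ≤ T.card := by
  classical
  unfold cnt
  exact_mod_cast Finset.card_filter_le _ _

theorem cnt_meas {K : Ω → Set ℂ} (hK : ∀ z r, MeasurableSet (Hit K z r)) (T : Finset ℂ) (r : ℝ) :
    Measurable (cnt K T r) := by
  have : cnt K T r = fun ω => ∑ y ∈ T, (Hit K y r).indicator (fun _ => (1 : ℝ)) ω := by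
    funext ω
    exact cnt_eq K T r ω
  rw [this]
  exact Finset.measurable_sum _ (fun y _ => measurable_const.indicator (hK y r))

theorem cnt_int (μ : Measure Ω) [IsProbabilityMeasure μ] {K : Ω → Set ℂ}
    (hK : ∀ z r, MeasurableSet (Hit K z r)) (T : Finset ℂ) (r : ℝ) (d : ℕ) :
    Integrable (fun ω => cnt K T r ω ^ d) μ := by
  refine Integrable.of_bound ((cnt_meas hK T r).pow_const d).aestronglyMeasurable
    ((T.card : ℝ) ^ d) (Filter.Eventually.of_forall (fun ω => ?_))
  rw [Real.norm_eq_abs, abs_of_nonneg (pow_nonneg (cnt_nonneg K T r ω) d)]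
  exact pow_le_pow_left₀ (cnt_nonneg K T r ω) (cnt_le K T r ω) d

/-- One step of the recursion. -/
theorem step (μ : Measure Ω) [IsProbabilityMeasure μ] {K : Ω → Set ℂ}
    (hK : ∀ z r, MeasurableSet (Hit K z r)) (T : Finset ℂ) (r : ℝ) (d : ℕ) (E : Set Ω) :
    ∫ ω in E, cnt K T r ω ^ (d + 1) ∂μ = ∑ y ∈ T, ∫ ω in E ∩ Hit K y r, cnt K T r ω ^ d ∂μ := by
  have h1 : ∀ ω, cnt K T r ω ^ (d + 1) =
      ∑ y ∈ T, (Hit K y r).indicator (fun ω => cnt K T r ω ^ d) ω := by
    intro ω
    rw [pow_succ]
    conv_lhs => rw [cnt_eq K T r ω]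
    rw [Finset.mul_sum]
    apply Finset.sum_congr rfl
    intro y _
    by_cases hy : ω ∈ Hit K y r
    · rw [Set.indicator_of_mem hy, Set.indicator_of_mem hy, mul_one, ← cnt_eq]
    · rw [Set.indicator_of_notMem hy, Set.indicator_of_notMem hy, mul_zero]
  calc ∫ ω in E, cnt K T r ω ^ (d + 1) ∂μ =
      ∫ ω in E, ∑ y ∈ T, (Hit K y r).indicator (fun ω => cnt K T r ω ^ d) ω ∂μ := by
        apply integral_congr_ae
        exact Filter.Eventually.of_forall (fun ω => h1 ω)
    _ = ∑ y ∈ T, ∫ ω in E, (Hit K y r).indicator (fun ω => cnt K T r ω ^ d) ω ∂μ := by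
        apply integral_finset_sum
        intro y _
        exact ((cnt_int μ hK T r d).integrableOn (s := E)).indicator (hK y r)
    _ = ∑ y ∈ T, ∫ ω in E ∩ Hit K y r, cnt K T r ω ^ d ∂μ := by
        apply Finset.sum_congr rfl
        intro y _
        exact setIntegral_indicator (hK y r)

end MoL

open MoL in
theorem mo : S_MO := by
  intro Ω _ μ _ K hK m hm T r C B L hr hC hB hL h1 h2
  set G : ℂ → ℂ → ℝ := fun x y => (max (dist x y) r) ^ (-(1/2) : ℝ) with hG
  have hG0 : ∀ x y, 0 ≤ G x y := fun x y => Real.rpow_nonneg (le_trans hr.le (le_max_right _ _)) _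
  have key : ∀ d k : ℕ, k + d = m → 1 ≤ k → ∀ x : ℕ → ℂ, (∀ i < k, x i ∈ T) →
      ∫ ω in (⋂ i ∈ Finset.range k, Hit K (x i) r), cnt K T r ω ^ d ∂μ ≤
        C * (∏ l ∈ Finset.Ico 1 k, ∑ j ∈ Finset.range l, G (x l) (x j)) * (m * B) ^ d := by
    intro d
    induction d with
    | zero =>
      intro k hk hk1 x hx
      rw [add_zero] at hk
      subst hk
      simp only [pow_zero, mul_one]
      rw [setIntegral_const, smul_eq_mul, mul_one]
      exact h1 x hx
    | succ d ih =>
      intro k hk hk1 x hx
      rw [step μ hK T r d]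
      have hstep : ∀ y ∈ T, ∫ ω in (⋂ i ∈ Finset.range k, Hit K (x i) r) ∩ Hit K y r,
          cnt K T r ω ^ d ∂μ ≤
          C * ((∏ l ∈ Finset.Ico 1 k, ∑ j ∈ Finset.range l, G (x l) (x j)) *
            ∑ j ∈ Finset.range k, G y (x j)) * (m * B) ^ d := by
        intro y hy
        have hx' : ∀ i < k + 1, (Function.update x k y) i ∈ T := by
          intro i hi
          rcases Nat.lt_succ_iff_lt_or_eq.mp hi with h | h
          · rw [Function.update_of_ne (by omega)]; exact hx i h
          · rw [h, Function.update_self]; exact hy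
        have h3 := ih (k + 1) (by omega) (by omega) (Function.update x k y) hx'
        have e1 : (⋂ i ∈ Finset.range (k + 1), Hit K (Function.update x k y i) r) =
            (⋂ i ∈ Finset.range k, Hit K (x i) r) ∩ Hit K y r := by
          ext ω
          simp only [Set.mem_iInter, Finset.mem_range, Set.mem_inter_iff]
          constructor
          · intro h
            refine ⟨fun i hi => ?_, ?_⟩
            · have := h i (by omega)
              rwa [Function.update_of_ne (by omega)] at this
            · have := h k (by omega)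
              rwa [Function.update_self] at this
          · rintro ⟨h, h'⟩ i hi
            rcases Nat.lt_succ_iff_lt_or_eq.mp hi with h3 | h3
            · rw [Function.update_of_ne (by omega)]; exact h i h3
            · rw [h3, Function.update_self]; exact h'
        have e2 : (∏ l ∈ Finset.Ico 1 (k + 1), ∑ j ∈ Finset.range l,
              G (Function.update x k y l) (Function.update x k y j)) =
            (∏ l ∈ Finset.Ico 1 k, ∑ j ∈ Finset.range l, G (x l) (x j)) *
            ∑ j ∈ Finset.range k, G y (x j) := by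
          rw [Finset.prod_Ico_succ_top hk1]
          congr 1
          · apply Finset.prod_congr rfl
            intro l hl
            rw [Finset.mem_Ico] at hl
            apply Finset.sum_congr rfl
            intro j hj
            rw [Finset.mem_range] at hj
            rw [Function.update_of_ne (by omega), Function.update_of_ne (by omega)]
          · apply Finset.sum_congr rfl
            intro j hj
            rw [Finset.mem_range] at hj
            rw [Function.update_self, Function.update_of_ne (by omega)]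
        rw [e1, e2] at h3
        exact h3
      refine (Finset.sum_le_sum hstep).trans ?_
      have hP0 : 0 ≤ ∏ l ∈ Finset.Ico 1 k, ∑ j ∈ Finset.range l, G (x l) (x j) :=
        Finset.prod_nonneg (fun l _ => Finset.sum_nonneg (fun j _ => hG0 _ _))
      have hsum : ∑ y ∈ T, ∑ j ∈ Finset.range k, G y (x j) ≤ m * B := by
        rw [Finset.sum_comm]
        calc ∑ j ∈ Finset.range k, ∑ y ∈ T, G y (x j) ≤ ∑ j ∈ Finset.range k, B := by
              apply Finset.sum_le_sum
              intro j hj
              exact h2 (x j) (hx j (Finset.mem_range.mp hj))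
          _ = k * B := by rw [Finset.sum_const, Finset.card_range, nsmul_eq_mul]
          _ ≤ m * B := mul_le_mul_of_nonneg_right (by exact_mod_cast (show k ≤ m by omega)) hB
      have hmB : 0 ≤ (m * B : ℝ) := by positivity
      calc ∑ y ∈ T, C * ((∏ l ∈ Finset.Ico 1 k, ∑ j ∈ Finset.range l, G (x l) (x j)) *
            ∑ j ∈ Finset.range k, G y (x j)) * (m * B) ^ d =
          C * (∏ l ∈ Finset.Ico 1 k, ∑ j ∈ Finset.range l, G (x l) (x j)) *
            (∑ y ∈ T, ∑ j ∈ Finset.range k, G y (x j)) * (m * B) ^ d := by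
            rw [Finset.mul_sum, Finset.sum_mul]
            apply Finset.sum_congr rfl
            intro y _
            ring
        _ ≤ C * (∏ l ∈ Finset.Ico 1 k, ∑ j ∈ Finset.range l, G (x l) (x j)) *
            (m * B) * (m * B) ^ d := by
            apply mul_le_mul_of_nonneg_right _ (by positivity)
            exact mul_le_mul_of_nonneg_left hsum (mul_nonneg hC hP0)
        _ = C * (∏ l ∈ Finset.Ico 1 k, ∑ j ∈ Finset.range l, G (x l) (x j)) *
            (m * B) ^ (d + 1) := by ring
  -- the first point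
  obtain ⟨d, rfl⟩ : ∃ d, m = d + 1 := ⟨m - 1, by omega⟩
  have hfirst : ∫ ω, cnt K T r ω ^ (d + 1) ∂μ ≤ C * T.card * ((d + 1 : ℕ) * B) ^ d := by
    have h3 := step μ hK T r d (Set.univ)
    rw [setIntegral_univ] at h3
    rw [h3]
    calc ∑ y ∈ T, ∫ ω in Set.univ ∩ Hit K y r, cnt K T r ω ^ d ∂μ ≤
        ∑ _y ∈ T, C * ((d + 1 : ℕ) * B) ^ d := by
          apply Finset.sum_le_sum
          intro y hy
          have h4 := key d 1 (by omega) le_rfl (fun _ => y) (fun i _ => hy)
          have e1 : (⋂ i ∈ Finset.range 1, Hit K ((fun _ : ℕ => y) i) r) =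
              Set.univ ∩ Hit K y r := by
            ext ω
            simp
          rw [e1, Finset.Ico_self, Finset.prod_empty, mul_one] at h4
          exact h4
      _ = C * T.card * ((d + 1 : ℕ) * B) ^ d := by
          rw [Finset.sum_const, nsmul_eq_mul]; ring
  have hmark := mul_meas_ge_le_integral_of_nonneg (μ := μ) (f := fun ω => cnt K T r ω ^ (d + 1))
    (Filter.Eventually.of_forall (fun ω => pow_nonneg (cnt_nonneg K T r ω) _))
    (cnt_int μ hK T r (d + 1)) (L ^ (d + 1))
  have hsub : {ω | L ≤ cnt K T r ω} ⊆ {ω | L ^ (d + 1) ≤ cnt K T r ω ^ (d + 1)} := by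
    intro ω hω
    exact pow_le_pow_left₀ hL.le hω _
  have hmono : μ.real {ω | L ≤ cnt K T r ω} ≤
      μ.real {ω | L ^ (d + 1) ≤ cnt K T r ω ^ (d + 1)} := measureReal_mono hsub
  calc L ^ (d + 1) * μ.real {ω | L ≤ cnt K T r ω} ≤
      L ^ (d + 1) * μ.real {ω | L ^ (d + 1) ≤ cnt K T r ω ^ (d + 1)} :=
        mul_le_mul_of_nonneg_left hmono (by positivity)
    _ ≤ ∫ ω, cnt K T r ω ^ (d + 1) ∂μ := hmark
    _ ≤ C * T.card * ((d + 1 : ℕ) * B) ^ d := hfirst

end Pool.Agent.Helper54K9.UL
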