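import Pool.Agent.Helper20K9.UL.Stm

/-!
UL (MP_b3e76a_pr): the leaf SH (sums over regular sets).
-/

set_option autoImplicit false

namespace Pool.Agent.Helper54K9.UL

open MeasureTheory Filter Topology Metric Set
open Helper20K9.UL
open scoped ENNReal NNReal

namespace ShL

/-- Weighted number of points of `T` within the scale `s`. -/
theorem count {T : Finset ℂ} {n : ℕ} {Q β : ℝ}
    (h : ∀ (x : ℂ) (ρ : ℝ), (2 : ℝ) ^ (-(n : ℝ)) ≤ ρ →
      ((T : Set ℂ) ∩ closedBall x ρ).ncard ≤ Q * (ρ * 2 ^ (n : ℝ)) ^ β)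
    (y : ℂ) {s : ℝ} (hs : (2 : ℝ) ^ (-(n : ℝ)) ≤ s) (P : Finset ℂ) (hP : P ⊆ T)
    (hPs : ∀ x ∈ P, dist x y ≤ s) : (P.card : ℝ) ≤ Q * (s * 2 ^ (n : ℝ)) ^ β := by
  refine le_trans ?_ (h y s hs)
  have hsub : (P : Set ℂ) ⊆ (T : Set ℂ) ∩ closedBall y s :=
    fun x hx => ⟨hP hx, hPs x hx⟩
  have h1 := Set.ncard_le_ncard hsub (T.finite_toSet.inter_of_left _)
  rw [Set.ncard_coe_finset] at h1
  exact_mod_cast h1

end ShL

open ShL in
theorem sh : S_SH := by
  classical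
  intro Q β M hQ hβ hM
  set M' : ℝ := max M 1 with hM'
  have hM1 : 1 ≤ M' := le_max_right _ _
  have hM0 : 0 < M' := by linarith
  set q : ℝ := (1 / 2 : ℝ) ^ (β - 1 / 2) with hq
  have hq0 : 0 < q := by positivity
  have hq1 : q < 1 := Real.rpow_lt_one (by norm_num) (by norm_num) (by linarith)
  set C1 : ℝ := Q * M' ^ β with hC1
  set C2 : ℝ := (1 / 2 : ℝ) ^ (-(1 / 2) : ℝ) * (Q * (M' ^ (β - 1 / 2) * (1 - q)⁻¹)) with hC2
  have hC1p : 0 < C1 := by positivity
  have hq2 : 0 < 1 - q := by linarith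
  have hC2p : 0 < C2 := by positivity
  refine ⟨C1 + C2, by positivity, ?_⟩
  intro T n hdist hreg
  set r : ℝ := (2 : ℝ) ^ (-(n : ℝ)) with hr
  have hr0 : 0 < r := by positivity
  have hr1 : r ≤ 1 := by
    rw [hr]
    apply Real.rpow_le_one_of_one_le_of_nonpos (by norm_num)
    have : (0 : ℝ) ≤ n := Nat.cast_nonneg n
    linarith
  have h2n : (0 : ℝ) < (2 : ℝ) ^ (n : ℝ) := by positivity
  have hβn : ((2 : ℝ) ^ (n : ℝ)) ^ β = (2 : ℝ) ^ (β * n) := by
    rw [← Real.rpow_mul (by norm_num), mul_comm]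
  have hX : (0 : ℝ) < (2 : ℝ) ^ (β * n) := by positivity
  constructor
  · rcases T.eq_empty_or_nonempty with hT | ⟨y, hy⟩
    · rw [hT, Finset.card_empty]
      push_cast
      positivity
    · have h1 := count hreg y (s := M') (by linarith) T (Finset.Subset.refl _)
        (fun x hx => (hdist x hx y hy).trans (le_max_left _ _))
      rw [Real.mul_rpow hM0.le h2n.le, hβn, ← mul_assoc] at h1
      refine h1.trans ?_
      apply mul_le_mul_of_nonneg_right _ hX.le
      linarith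
  · intro y hy
    -- scales
    obtain ⟨N, hN⟩ : ∃ N : ℕ, M' * (1 / 2 : ℝ) ^ N < r := by
      obtain ⟨N, hN⟩ := exists_pow_lt_of_lt_one (show 0 < r / M' by positivity)
        (show (1 / 2 : ℝ) < 1 by norm_num)
      refine ⟨N, ?_⟩
      rw [lt_div_iff₀ hM0] at hN
      linarith
    set sc : ℕ → ℝ := fun i => M' * (1 / 2 : ℝ) ^ i with hsc
    have hsc0 : ∀ i, 0 < sc i := fun i => by rw [hsc]; positivity
    set I : Finset ℕ := (Finset.range N).filter (fun i => r ≤ sc i) with hI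
    have hpt : ∀ x ∈ T, (max (dist x y) r) ^ (-(1/2) : ℝ) ≤
        ∑ i ∈ I, (if dist x y ≤ sc i then (1 / 2 : ℝ) ^ (-(1 / 2) : ℝ) * (sc i) ^ (-(1 / 2) : ℝ)
          else 0) := by
      intro x hx
      set d : ℝ := max (dist x y) r with hd
      have hd0 : 0 < d := lt_of_lt_of_le hr0 (le_max_right _ _)
      have hdr : r ≤ d := le_max_right _ _
      have hdM : d ≤ M' := max_le ((hdist x hx y hy).trans (le_max_left _ _)) (by linarith)
      have hex : ∃ i, sc i < d := ⟨N, lt_of_lt_of_le hN hdr⟩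
      have hi1 := Nat.find_spec hex
      have hne : Nat.find hex ≠ 0 := by
        intro h0
        rw [h0] at hi1
        have : sc 0 = M' := by rw [hsc]; simp
        rw [this] at hi1
        linarith
      obtain ⟨i, hi⟩ : ∃ i, Nat.find hex = i + 1 := ⟨Nat.find hex - 1, by omega⟩
      have hi2 : d ≤ sc i := by
        have := Nat.find_min hex (m := i) (by omega)
        exact not_lt.mp this
      rw [hi] at hi1
      have hhalf : sc (i + 1) = 1 / 2 * sc i := by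
        rw [hsc]; simp only [pow_succ]; ring
      rw [hhalf] at hi1
      have hiI : i ∈ I := by
        rw [hI, Finset.mem_filter, Finset.mem_range]
        refine ⟨?_, hdr.trans hi2⟩
        by_contra hcon
        push Not at hcon
        have : sc i ≤ sc N := by
          rw [hsc]
          apply mul_le_mul_of_nonneg_left _ hM0.le
          exact pow_le_pow_of_le_one (by norm_num) (by norm_num) hcon
        have h3 : sc N < r := hN
        linarith
      have hterm : d ^ (-(1/2) : ℝ) ≤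
          (1 / 2 : ℝ) ^ (-(1 / 2) : ℝ) * (sc i) ^ (-(1 / 2) : ℝ) := by
        rw [← Real.mul_rpow (by norm_num) (hsc0 i).le]
        exact Real.rpow_le_rpow_of_nonpos (by have := hsc0 i; positivity) hi1.le (by norm_num)
      refine hterm.trans ?_
      have hle : dist x y ≤ sc i := (le_max_left _ _).trans hi2
      have h4 := Finset.single_le_sum (f := fun i => (if dist x y ≤ sc i then
        (1 / 2 : ℝ) ^ (-(1 / 2) : ℝ) * (sc i) ^ (-(1 / 2) : ℝ) else 0)) (s := I) (fun j _ => by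
          split_ifs
          · have := hsc0 j; positivity
          · exact le_rfl) hiI
      simp only [if_pos hle] at h4
      exact h4
    have hcnt : ∀ i ∈ I, ∑ x ∈ T, (if dist x y ≤ sc i then
        (1 / 2 : ℝ) ^ (-(1 / 2) : ℝ) * (sc i) ^ (-(1 / 2) : ℝ) else 0) ≤
        ((1 / 2 : ℝ) ^ (-(1 / 2) : ℝ) * (sc i) ^ (-(1 / 2) : ℝ)) *
          (Q * (sc i * 2 ^ (n : ℝ)) ^ β) := by
      intro i hi
      rw [hI, Finset.mem_filter] at hi
      rw [← Finset.sum_filter, Finset.sum_const, nsmul_eq_mul, mul_comm]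
      apply mul_le_mul_of_nonneg_left _ (by have := hsc0 i; positivity)
      exact count hreg y hi.2 _ (Finset.filter_subset _ _)
        (fun x hx => (Finset.mem_filter.mp hx).2)
    have hterm2 : ∀ i, ((1 / 2 : ℝ) ^ (-(1 / 2) : ℝ) * (sc i) ^ (-(1 / 2) : ℝ)) *
          (Q * (sc i * 2 ^ (n : ℝ)) ^ β) =
        ((1 / 2 : ℝ) ^ (-(1 / 2) : ℝ) * (Q * M' ^ (β - 1 / 2)) * (2 : ℝ) ^ (β * n)) * q ^ i := by
      intro i
      rw [Real.mul_rpow (hsc0 i).le h2n.le, hβn]
      have e1 : (sc i) ^ (-(1 / 2) : ℝ) * (sc i) ^ β = M' ^ (β - 1 / 2) * q ^ i := by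
        rw [← Real.rpow_add (hsc0 i)]
        have e2 : -(1 / 2) + β = β - 1 / 2 := by ring
        rw [e2, hsc]
        simp only
        rw [Real.mul_rpow hM0.le (by positivity), hq, ← Real.rpow_natCast, ← Real.rpow_natCast,
          ← Real.rpow_mul (by norm_num), ← Real.rpow_mul (by norm_num), mul_comm (i : ℝ)]
      calc ((1 / 2 : ℝ) ^ (-(1 / 2) : ℝ) * (sc i) ^ (-(1 / 2) : ℝ)) *
          (Q * ((sc i) ^ β * (2 : ℝ) ^ (β * n))) =
          (1 / 2 : ℝ) ^ (-(1 / 2) : ℝ) * Q * (2 : ℝ) ^ (β * n) *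
            ((sc i) ^ (-(1 / 2) : ℝ) * (sc i) ^ β) := by ring
        _ = _ := by rw [e1]; ring
    have hgeo : ∑ i ∈ I, q ^ i ≤ (1 - q)⁻¹ := by
      rw [← tsum_geometric_of_lt_one hq0.le hq1]
      exact (summable_geometric_of_lt_one hq0.le hq1).sum_le_tsum I (fun i _ => by positivity)
    calc ∑ x ∈ T, (max (dist x y) r) ^ (-(1/2) : ℝ) ≤
        ∑ x ∈ T, ∑ i ∈ I, (if dist x y ≤ sc i then
          (1 / 2 : ℝ) ^ (-(1 / 2) : ℝ) * (sc i) ^ (-(1 / 2) : ℝ) else 0) :=
          Finset.sum_le_sum hpt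
      _ = ∑ i ∈ I, ∑ x ∈ T, (if dist x y ≤ sc i then
          (1 / 2 : ℝ) ^ (-(1 / 2) : ℝ) * (sc i) ^ (-(1 / 2) : ℝ) else 0) := Finset.sum_comm
      _ ≤ ∑ i ∈ I, ((1 / 2 : ℝ) ^ (-(1 / 2) : ℝ) * (Q * M' ^ (β - 1 / 2)) *
            (2 : ℝ) ^ (β * n)) * q ^ i := by
          apply Finset.sum_le_sum
          intro i hi
          exact (hcnt i hi).trans (le_of_eq (hterm2 i))
      _ = ((1 / 2 : ℝ) ^ (-(1 / 2) : ℝ) * (Q * M' ^ (β - 1 / 2)) *
            (2 : ℝ) ^ (β * n)) * ∑ i ∈ I, q ^ i := by rw [Finset.mul_sum]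
      _ ≤ ((1 / 2 : ℝ) ^ (-(1 / 2) : ℝ) * (Q * M' ^ (β - 1 / 2)) *
            (2 : ℝ) ^ (β * n)) * (1 - q)⁻¹ := by
          apply mul_le_mul_of_nonneg_left hgeo (by positivity)
      _ = C2 * (2 : ℝ) ^ (β * n) := by rw [hC2]; ring
      _ ≤ (C1 + C2) * (2 : ℝ) ^ (β * n) := by
          apply mul_le_mul_of_nonneg_right _ hX.le
          linarith

end Pool.Agent.Helper54K9.UL
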