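import Pool.Agent.Helper20K9.UL.Stm

/-!
UL (MP_b3e76a_pr): the leaf FAM (Lipschitz families of bi-Lipschitz arcs).
-/

set_option autoImplicit false

namespace Pool.Agent.Helper54K9.UL

open MeasureTheory Filter Topology Metric Set
open Helper20K9.UL
open scoped ENNReal NNReal

theorem fam : S_FAM := by
  classical
  intro k M F hM hL hB
  set c : ℕ := ⌈M⌉₊ with hc
  have hc1 : 1 ≤ c := Nat.one_le_ceil_iff.mpr hM
  have hMc : M ≤ c := Nat.le_ceil M
  have hcR : (1 : ℝ) ≤ c := by exact_mod_cast hc1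
  refine ⟨k, (4 * c : ℝ) ^ k + (4 * M * c + 1), by positivity, ?_⟩
  intro n
  set N : ℕ := 2 * c * 2 ^ n with hN
  have hN0 : 0 < N := by positivity
  have hNR : (0 : ℝ) < N := by exact_mod_cast hN0
  have hNe : (N : ℝ) = 2 * c * 2 ^ n := by rw [hN]; push_cast; ring
  set θg : (Fin k → Fin (N + 1)) → (Fin k → ℝ) := fun g i => ((g i : ℕ) : ℝ) / N with hθg
  set Tg : (Fin k → Fin (N + 1)) → Finset ℂ :=
    fun g => (Finset.range (N + 1)).image (fun j : ℕ => F (θg g) ((j : ℝ) / N)) with hTg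
  have hgrid : ∀ j : ℕ, j < N + 1 → ((j : ℝ) / N) ∈ Icc (0 : ℝ) 1 := by
    intro j hj
    refine ⟨by positivity, ?_⟩
    rw [div_le_one hNR]
    exact_mod_cast (show j ≤ N by omega)
  have hθI : ∀ g, θg g ∈ Icc (0 : Fin k → ℝ) 1 := by
    intro g
    refine ⟨fun i => ?_, fun i => ?_⟩
    · exact (hgrid (g i) (g i).2).1
    · exact (hgrid (g i) (g i).2).2
  have h2n : (0 : ℝ) < 2 ^ n := by positivity
  have hrn : (2 : ℝ) ^ (-(n : ℝ)) = (2 ^ n)⁻¹ := by
    rw [Real.rpow_neg (by norm_num), Real.rpow_natCast]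
  refine ⟨Finset.univ.image Tg, ?_, ?_, ?_⟩
  · -- the number of sets
    have h1 : ((Finset.univ.image Tg).card : ℝ) ≤ ((N + 1 : ℕ) : ℝ) ^ k := by
      have h2 : (Finset.univ.image Tg).card ≤ (N + 1) ^ k := by
        refine Finset.card_image_le.trans ?_
        rw [Finset.card_univ, Fintype.card_fun, Fintype.card_fin, Fintype.card_fin]
      exact_mod_cast h2
    refine h1.trans ?_
    have h3 : ((N + 1 : ℕ) : ℝ) ≤ 4 * c * 2 ^ n := by
      push_cast
      rw [hNe]
      have : (1 : ℝ) ≤ 2 ^ n := one_le_pow₀ (by norm_num)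
      nlinarith
    calc ((N + 1 : ℕ) : ℝ) ^ k ≤ (4 * c * 2 ^ n) ^ k := pow_le_pow_left₀ (by positivity) h3 k
      _ = (4 * c : ℝ) ^ k * 2 ^ (k * n) := by rw [mul_pow, ← pow_mul, mul_comm n k]
      _ ≤ ((4 * c : ℝ) ^ k + (4 * M * c + 1)) * 2 ^ (k * n) := by
        apply mul_le_mul_of_nonneg_right _ (by positivity)
        have : 0 < 4 * M * c + 1 := by positivity
        linarith
  · -- regularity
    intro T hT x ρ hρ
    rw [Finset.mem_image] at hT
    obtain ⟨g, _, rfl⟩ := hT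
    rw [hrn] at hρ
    have hρ0 : 0 < ρ := lt_of_lt_of_le (by positivity) hρ
    have hρ1 : 1 ≤ ρ * 2 ^ n := by
      rw [inv_le_iff_one_le_mul₀ h2n] at hρ
      linarith
    set J : Finset ℕ := (Finset.range (N + 1)).filter
      (fun j : ℕ => F (θg g) ((j : ℝ) / N) ∈ closedBall x ρ) with hJ
    have hsub : ((Tg g : Finset ℂ) : Set ℂ) ∩ closedBall x ρ ⊆
        ((J.image (fun j : ℕ => F (θg g) ((j : ℝ) / N)) : Finset ℂ) : Set ℂ) := by
      rintro z ⟨hz1, hz2⟩
      rw [Finset.mem_coe, hTg, Finset.mem_image] at hz1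
      obtain ⟨j, hj, rfl⟩ := hz1
      rw [Finset.mem_coe, Finset.mem_image]
      exact ⟨j, Finset.mem_filter.mpr ⟨hj, hz2⟩, rfl⟩
    have hcard1 : (((Tg g : Finset ℂ) : Set ℂ) ∩ closedBall x ρ).ncard ≤ J.card := by
      refine (Set.ncard_le_ncard hsub (Finset.finite_toSet _)).trans ?_
      rw [Set.ncard_coe_finset]
      exact Finset.card_image_le
    have hclose : ∀ i ∈ J, ∀ j ∈ J, ((j : ℝ) - i) ≤ 2 * M * ρ * N := by
      intro i hi j hj
      rw [hJ, Finset.mem_filter, Finset.mem_range] at hi hj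
      have h1 := (hB (θg g) (hθI g) _ (hgrid j hj.1) _ (hgrid i hi.1)).1
      have h2 : dist (F (θg g) ((j : ℝ) / N)) (F (θg g) ((i : ℝ) / N)) ≤ 2 * ρ := by
        have h3 := dist_triangle_right (F (θg g) ((j : ℝ) / N)) (F (θg g) ((i : ℝ) / N)) x
        have h4 := mem_closedBall.mp hi.2
        have h5 := mem_closedBall.mp hj.2
        linarith
      rw [Real.dist_eq] at h1
      have h6 : ((j : ℝ) - i) / N ≤ M * (2 * ρ) := by
        have h7 := (le_abs_self _).trans (h1.trans (mul_le_mul_of_nonneg_left h2 hM.le))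
        rw [← sub_div] at h7
        exact h7
      rw [div_le_iff₀ hNR] at h6
      linarith
    have hcard2 : (J.card : ℝ) ≤ 2 * M * ρ * N + 1 := by
      rcases J.eq_empty_or_nonempty with hJe | hJn
      · rw [hJe, Finset.card_empty]
        push_cast
        positivity
      · set j0 := J.min' hJn with hj0
        have hJsub : J ⊆ Finset.Icc j0 (j0 + ⌊2 * M * ρ * N⌋₊) := by
          intro j hj
          rw [Finset.mem_Icc]
          have h1 := J.min'_le j hj
          refine ⟨h1, ?_⟩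
          have h2 := hclose j0 (J.min'_mem hJn) j hj
          have h3 : j - j0 ≤ ⌊2 * M * ρ * N⌋₊ := by
            apply Nat.le_floor
            rw [Nat.cast_sub h1]
            exact h2
          omega
        have h4 := Finset.card_le_card hJsub
        rw [Nat.card_Icc] at h4
        have h5 : (J.card : ℝ) ≤ (⌊2 * M * ρ * N⌋₊ : ℝ) + 1 := by
          exact_mod_cast (show J.card ≤ ⌊2 * M * ρ * N⌋₊ + 1 by omega)
        have h6 := Nat.floor_le (show 0 ≤ 2 * M * ρ * N by positivity)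
        linarith
    rw [Real.rpow_one, Real.rpow_natCast]
    calc ((((Tg g : Finset ℂ) : Set ℂ) ∩ closedBall x ρ).ncard : ℝ) ≤ J.card := by
          exact_mod_cast hcard1
      _ ≤ 2 * M * ρ * N + 1 := hcard2
      _ ≤ (4 * M * c + 1) * (ρ * 2 ^ n) := by
          rw [hNe]
          nlinarith
      _ ≤ ((4 * c : ℝ) ^ k + (4 * M * c + 1)) * (ρ * 2 ^ n) := by
          apply mul_le_mul_of_nonneg_right _ (by positivity)
          have : 0 < (4 * c : ℝ) ^ k := by positivity
          linarith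
  · -- covering
    rintro S ⟨θ, hθ, rfl⟩
    have hfl : ∀ t : ℝ, t ∈ Icc (0 : ℝ) 1 → ⌊t * N⌋₊ < N + 1 ∧
        |t - (⌊t * N⌋₊ : ℝ) / N| ≤ 1 / N := by
      intro t ht
      have h0 : 0 ≤ t * N := mul_nonneg ht.1 hNR.le
      constructor
      · have h1 : (⌊t * N⌋₊ : ℝ) ≤ N := (Nat.floor_le h0).trans (by nlinarith [ht.2])
        have h2 : ⌊t * N⌋₊ ≤ N := by exact_mod_cast h1
        omega
      · have h1 := Nat.floor_le h0
        have h2 := (Nat.lt_floor_add_one (t * N)).le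
        have e1 : t - (⌊t * N⌋₊ : ℝ) / N = (t * N - ⌊t * N⌋₊) / N := by
          field_simp
        rw [e1, abs_of_nonneg (div_nonneg (by linarith) hNR.le)]
        apply div_le_div_of_nonneg_right _ hNR.le
        linarith
    set g : Fin k → Fin (N + 1) := fun i => ⟨⌊θ i * N⌋₊, (hfl (θ i) ⟨hθ.1 i, hθ.2 i⟩).1⟩ with hg
    refine ⟨Tg g, Finset.mem_image.mpr ⟨g, Finset.mem_univ _, rfl⟩, ?_⟩
    rintro z ⟨s, hs, rfl⟩
    rw [mem_iUnion₂]
    refine ⟨F (θg g) ((⌊s * N⌋₊ : ℝ) / N), ?_, ?_⟩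
    · rw [hTg, Finset.mem_image]
      exact ⟨⌊s * N⌋₊, Finset.mem_range.mpr (hfl s hs).1, rfl⟩
    · rw [mem_closedBall]
      have h1 : dist (F θ s) (F (θg g) s) ≤ M * (1 / N) := by
        refine (hL θ hθ (θg g) (hθI g) s hs).trans (mul_le_mul_of_nonneg_left ?_ hM.le)
        rw [dist_pi_le_iff (by positivity)]
        intro i
        rw [Real.dist_eq]
        exact (hfl (θ i) ⟨hθ.1 i, hθ.2 i⟩).2
      have h2 : dist (F (θg g) s) (F (θg g) ((⌊s * N⌋₊ : ℝ) / N)) ≤ M * (1 / N) := by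
        refine ((hB (θg g) (hθI g) s hs _ (hgrid _ (hfl s hs).1)).2).trans
          (mul_le_mul_of_nonneg_left ?_ hM.le)
        rw [Real.dist_eq]
        exact (hfl s hs).2
      have h3 := dist_triangle (F θ s) (F (θg g) s) (F (θg g) ((⌊s * N⌋₊ : ℝ) / N))
      refine h3.trans ((add_le_add h1 h2).trans ?_)
      rw [hrn, hNe]
      have h4 : M * (1 / (2 * c * 2 ^ n)) + M * (1 / (2 * c * 2 ^ n)) =
          (M / c) * ((2 : ℝ) ^ n)⁻¹ := by
        field_simp
        ring
      rw [h4]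
      have h5 : M / c ≤ 1 := by rw [div_le_one (by linarith)]; exact hMc
      have h6 : (0 : ℝ) ≤ ((2 : ℝ) ^ n)⁻¹ := by positivity
      nlinarith

end Pool.Agent.Helper54K9.UL
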